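import Pool.Agent.N300.UN.Stubs2
import Pool.Agent.H291R2.FZ.LEBF

/-!
# UN/LEBP: two free symmetries generate a copy of `C([0,1])` with the Lebesgue measure
-/

set_option autoImplicit false

open scoped ComplexConjugate

noncomputable section

namespace Pool.Agent.N157.UN

open Pool.Agent.H923R2.FP Pool.Agent.H923R2.FZ Pool.Agent.N300.UN MeasureTheory

/-- `t ↦ cos (k π t)` -/
def cosk (k : ℕ) : C(unitInterval, ℂ) :=
  ⟨fun t => ((Real.cos (k * (Real.pi * (t : ℝ))) : ℝ) : ℂ), by fun_prop⟩

lemma cosk_apply (k : ℕ) (t : unitInterval) :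
    cosk k t = ((Real.cos (k * (Real.pi * (t : ℝ))) : ℝ) : ℂ) := rfl

lemma cosk_zero : cosk 0 = 1 := by
  ext t
  simp [cosk_apply]

lemma cosk_mul (k l : ℕ) (h : l ≤ k) : cosk k * cosk l = (1 / 2 : ℂ) • (cosk (k + l) + cosk (k - l)) := by
  ext t
  simp only [ContinuousMap.mul_apply, cosk_apply, ContinuousMap.smul_apply,
    ContinuousMap.add_apply, smul_eq_mul]
  rw [← Complex.ofReal_mul, ← Complex.ofReal_add]
  have h1 := Real.cos_add (k * (Real.pi * (t : ℝ))) (l * (Real.pi * (t : ℝ)))
  have h2 := Real.cos_sub (k * (Real.pi * (t : ℝ))) (l * (Real.pi * (t : ℝ)))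
  have e1 : ((k + l : ℕ) : ℝ) * (Real.pi * (t : ℝ)) =
      k * (Real.pi * (t : ℝ)) + l * (Real.pi * (t : ℝ)) := by push_cast; ring
  have e2 : ((k - l : ℕ) : ℝ) * (Real.pi * (t : ℝ)) =
      k * (Real.pi * (t : ℝ)) - l * (Real.pi * (t : ℝ)) := by
    rw [Nat.cast_sub h]; ring
  rw [e1, e2, h1, h2]
  push_cast
  ring

lemma cosk_star (k : ℕ) : star (cosk k) = cosk k := by
  ext t
  simp only [cosk_apply, ContinuousMap.star_apply]
  exact Complex.conj_ofReal _

/-- the algebra generated by `cos (π t)` is dense -/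
lemma dense_adj : (StarAlgebra.adjoin ℂ {cosk 1}).topologicalClosure = ⊤ := by
  apply ContinuousMap.starSubalgebra_topologicalClosure_eq_top_of_separatesPoints
  intro x y hxy
  refine ⟨fun t => cosk 1 t, ⟨cosk 1, ?_, rfl⟩, ?_⟩
  · exact StarAlgebra.subset_adjoin ℂ _ (Set.mem_singleton _)
  · simp only [cosk_apply, Nat.cast_one, one_mul, ne_eq, Complex.ofReal_inj]
    intro h
    apply hxy
    have hx : Real.pi * (x : ℝ) ∈ Set.Icc 0 Real.pi :=
      ⟨by have := x.2.1; positivity, by nlinarith [x.2.2, Real.pi_pos]⟩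
    have hy : Real.pi * (y : ℝ) ∈ Set.Icc 0 Real.pi :=
      ⟨by have := y.2.1; positivity, by nlinarith [y.2.2, Real.pi_pos]⟩
    have := Real.injOn_cos hx hy h
    have h2 := mul_left_cancel₀ Real.pi_ne_zero this
    exact Subtype.ext h2

/-- the span of the `cos (k π t)` contains the algebra -/
lemma adj_le_span (f : C(unitInterval, ℂ)) (hf : f ∈ StarAlgebra.adjoin ℂ {cosk 1}) :
    f ∈ Submodule.span ℂ (Set.range cosk) := by
  have hmul : ∀ k l : ℕ, cosk k * cosk l ∈ Submodule.span ℂ (Set.range cosk) := by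
    intro k l
    wlog h : l ≤ k generalizing k l with H
    · rw [mul_comm]
      exact H l k (by omega)
    · rw [cosk_mul k l h]
      exact Submodule.smul_mem _ _ (Submodule.add_mem _ (Submodule.subset_span ⟨_, rfl⟩)
        (Submodule.subset_span ⟨_, rfl⟩))
  have hmul' : ∀ f g : C(unitInterval, ℂ), f ∈ Submodule.span ℂ (Set.range cosk) →
      g ∈ Submodule.span ℂ (Set.range cosk) → f * g ∈ Submodule.span ℂ (Set.range cosk) := by
    intro f g hf hg
    induction hf using Submodule.span_induction with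
    | mem x hx =>
      obtain ⟨k, rfl⟩ := hx
      induction hg using Submodule.span_induction with
      | mem y hy => obtain ⟨l, rfl⟩ := hy; exact hmul k l
      | zero => rw [mul_zero]; exact Submodule.zero_mem _
      | add y z _ _ h1 h2 => rw [mul_add]; exact Submodule.add_mem _ h1 h2
      | smul a y _ h1 => rw [mul_smul_comm]; exact Submodule.smul_mem _ _ h1
    | zero => rw [zero_mul]; exact Submodule.zero_mem _
    | add y z _ _ h1 h2 => rw [add_mul]; exact Submodule.add_mem _ h1 h2
    | smul a y _ h1 => rw [smul_mul_assoc]; exact Submodule.smul_mem _ _ h1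
  have hstar : ∀ f : C(unitInterval, ℂ), f ∈ Submodule.span ℂ (Set.range cosk) →
      star f ∈ Submodule.span ℂ (Set.range cosk) := by
    intro f hf
    induction hf using Submodule.span_induction with
    | mem x hx => obtain ⟨k, rfl⟩ := hx; rw [cosk_star]; exact Submodule.subset_span ⟨_, rfl⟩
    | zero => rw [star_zero]; exact Submodule.zero_mem _
    | add y z _ _ h1 h2 => rw [star_add]; exact Submodule.add_mem _ h1 h2
    | smul a y _ h1 => rw [star_smul]; exact Submodule.smul_mem _ _ h1
  induction hf using StarAlgebra.adjoin_induction with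
  | mem x hx =>
    rw [Set.mem_singleton_iff] at hx
    subst hx
    exact Submodule.subset_span ⟨_, rfl⟩
  | algebraMap r =>
    rw [Algebra.algebraMap_eq_smul_one, ← cosk_zero]
    exact Submodule.smul_mem _ _ (Submodule.subset_span ⟨_, rfl⟩)
  | add x y _ _ hx hy => exact Submodule.add_mem _ hx hy
  | mul x y _ _ hx hy => exact hmul' _ _ hx hy
  | star x _ hx => exact hstar _ hx

/-- `∫ cos (k π t) dt = 0` for `k ≥ 1` -/
lemma leb_cosk (k : ℕ) (hk : k ≠ 0) : leb (cosk k) = 0 := by
  unfold leb
  have h1 : (∫ x : unitInterval, cosk k x) =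
      ∫ x in (0 : ℝ)..1, ((Real.cos (k * (Real.pi * x)) : ℝ) : ℂ) := by
    rw [intervalIntegral.integral_of_le zero_le_one, ← integral_Icc_eq_integral_Ioc]
    have := integral_subtype_comap (μ := (volume : Measure ℝ)) (s := Set.Icc (0:ℝ) 1) measurableSet_Icc
      (fun x : ℝ => ((Real.cos (k * (Real.pi * x)) : ℝ) : ℂ))
    rw [← this]
    rfl
  rw [h1, intervalIntegral.integral_ofReal]
  have h2 : (∫ x in (0 : ℝ)..1, Real.cos (k * (Real.pi * x))) = 0 := by
    have h3 : ∀ x : ℝ, Real.cos (k * (Real.pi * x)) = Real.cos ((k * Real.pi) * x) := by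
      intro x; ring_nf
    simp only [h3]
    have hc : (k * Real.pi : ℝ) ≠ 0 := mul_ne_zero (by exact_mod_cast hk) Real.pi_ne_zero
    rw [intervalIntegral.integral_comp_mul_left (fun x => Real.cos x) hc]
    simp [integral_cos, Real.sin_nat_mul_pi]
  rw [h2]
  simp

lemma leb_one : leb 1 = 1 := by
  unfold leb
  simp

/-- the words `a b a b …` -/
def alt {B : Type} (a b : B) : ℕ → List (Bool × B)
  | 0 => []
  | n + 1 => (true, a) :: (false, b) :: alt a b n

lemma alt_prod {B : Type} [Monoid B] (a b : B) (n : ℕ) :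
    ((alt a b n).map Prod.snd).prod = (a * b) ^ n := by
  induction n with
  | zero => simp [alt]
  | succ n ih =>
    simp only [alt, List.map_cons, List.prod_cons, ih]
    rw [pow_succ', mul_assoc]

lemma alt_chain {B : Type} (a b : B) (n : ℕ) :
    (alt a b n).IsChain (fun x y => x.1 ≠ y.1) := by
  induction n with
  | zero => simp [alt]
  | succ n ih =>
    rcases n with _ | n
    · simp [alt]
    · simp only [alt] at ih ⊢
      simp only [List.isChain_cons_cons] at ih ⊢
      simpa using ih

lemma alt_mem {B : Type} (a b : B) (n : ℕ) : ∀ z ∈ alt a b n, z = (true, a) ∨ z = (false, b) := by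
  induction n with
  | zero => simp [alt]
  | succ n ih =>
    intro z hz
    simp only [alt, List.mem_cons] at hz
    rcases hz with h | h | h
    · exact Or.inl h
    · exact Or.inr h
    · exact ih z h

section main

variable {B : Type} [CStarAlgebra B]

/-- symmetric sums of powers of the product of two symmetries -/
def yk (a b : B) (k : ℕ) : B := (1 / 2 : ℂ) • ((a * b) ^ k + (b * a) ^ k)

lemma yk_zero (a b : B) : yk a b 0 = 1 := by
  unfold yk
  rw [pow_zero, pow_zero, ← two_smul ℂ (1 : B), smul_smul]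
  norm_num

lemma yk_rec (a b : B) (ha : a * a = 1) (hb : b * b = 1) (k : ℕ) :
    yk a b (k + 2) = (2 : ℂ) • (yk a b 1 * yk a b (k + 1)) - yk a b k := by
  have h1 : (a * b) * (b * a) = 1 := by
    calc (a * b) * (b * a) = a * (b * b) * a := by noncomm_ring
      _ = 1 := by rw [hb, mul_one, ha]
  have h2 : (b * a) * (a * b) = 1 := by
    calc (b * a) * (a * b) = b * (a * a) * b := by noncomm_ring
      _ = 1 := by rw [ha, mul_one, hb]
  unfold yk
  set w := a * b
  set v := b * a
  have e1 : w * v ^ (k + 1) = v ^ k := by rw [pow_succ', ← mul_assoc, h1, one_mul]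
  have e2 : v * w ^ (k + 1) = w ^ k := by rw [pow_succ', ← mul_assoc, h2, one_mul]
  rw [pow_one, pow_one, smul_mul_smul_comm, add_mul, mul_add, mul_add, e1, e2, ← pow_succ',
    ← pow_succ']
  module

/-- from `z` in the spectrum to `arccos (re z) / π` -/
def th (x : B) : C(spectrum ℂ x, unitInterval) :=
  ⟨fun z => ⟨Real.arccos (z.1.re) / Real.pi,
    div_nonneg (Real.arccos_nonneg _) Real.pi_pos.le,
    (div_le_one Real.pi_pos).2 (Real.arccos_le_pi _)⟩, by
      refine Continuous.subtype_mk ?_ _
      exact (Real.continuous_arccos.comp (Complex.continuous_re.comp continuous_subtype_val)).div_const _⟩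

lemma yk_star (a b : B) (ha : star a = a) (hb : star b = b) : star (yk a b 1) = yk a b 1 := by
  unfold yk
  rw [star_smul, star_add, star_pow, star_pow, star_mul, star_mul, ha, hb, add_comm]
  simp

lemma norm_yk_le [Nontrivial B] (a b : B) (ha : star a = a) (hb : star b = b) (ha2 : a * a = 1) (hb2 : b * b = 1) :
    ‖yk a b 1‖ ≤ 1 := by
  have h1 : ‖a‖ = 1 := CStarRing.norm_of_mem_unitary (by
    rw [Unitary.mem_iff, ha]; exact ⟨ha2, ha2⟩)
  have h2 : ‖b‖ = 1 := CStarRing.norm_of_mem_unitary (by
    rw [Unitary.mem_iff, hb]; exact ⟨hb2, hb2⟩)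
  unfold yk
  rw [norm_smul, pow_one, pow_one]
  have h3 : ‖a * b + b * a‖ ≤ 2 := by
    refine (norm_add_le _ _).trans ?_
    have := norm_mul_le a b
    have := norm_mul_le b a
    rw [h1, h2] at *
    linarith
  have h4 : ‖(1 / 2 : ℂ)‖ = 1 / 2 := by simp
  rw [h4]
  linarith

theorem t_LEBP : S_LEBP := by
  intro B _ τ hτ e0 e1 h0 h1 hfree
  have hnt : Nontrivial B := by
    refine ⟨⟨1, 0, fun h => ?_⟩⟩
    have := hτ.one
    rw [h, map_zero] at this
    exact zero_ne_one this
  set a : B := e0 (1, -1) with ha'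
  set b : B := e1 (1, -1) with hb'
  have has : star a = a := by
    rw [ha', ← map_star]; congr 1; ext <;> simp
  have hbs : star b = b := by
    rw [hb', ← map_star]; congr 1; ext <;> simp
  have ha2 : a * a = 1 := by
    rw [ha', ← map_mul, ← map_one e0]; congr 1; ext <;> simp
  have hb2 : b * b = 1 := by
    rw [hb', ← map_mul, ← map_one e1]; congr 1; ext <;> simp
  have hta : τ a = 0 := by rw [ha', h0]; simp [tw]
  have htb : τ b = 0 := by rw [hb', h1]; simp [tw]
  -- traces
  have htw : ∀ k : ℕ, k ≠ 0 → τ ((a * b) ^ k) = 0 := by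
    intro k hk
    have := hfree (alt a b k) (by cases k with | zero => exact absurd rfl hk | succ k => simp [alt])
      (by
        intro z hz
        rcases alt_mem a b k z hz with h | h
        · subst h
          exact ⟨⟨_, rfl⟩, hta⟩
        · subst h
          exact ⟨⟨_, rfl⟩, htb⟩) (alt_chain a b k)
    rwa [alt_prod] at this
  have htv : ∀ k : ℕ, k ≠ 0 → τ ((b * a) ^ k) = 0 := by
    intro k hk
    have h3 : (b * a) ^ k = star ((a * b) ^ k) := by
      rw [star_pow, star_mul, has, hbs]
    rw [h3, hτ.str, htw k hk, map_zero]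
  have hty : ∀ k : ℕ, k ≠ 0 → τ (yk a b k) = 0 := by
    intro k hk
    unfold yk
    rw [map_smul, map_add, htw k hk, htv k hk]
    simp
  -- the map
  set x : B := yk a b 1 with hx
  have hxs : IsSelfAdjoint x := yk_star a b has hbs
  have hxn : IsStarNormal x := hxs.isStarNormal
  have hxb : ‖x‖ ≤ 1 := norm_yk_le a b has hbs ha2 hb2
  let c : C(unitInterval, ℂ) →⋆ₐ[ℂ] B :=
    (cfcHom (R := ℂ) (p := IsStarNormal) (a := x) hxn).comp
      (ContinuousMap.compStarAlgHom' ℂ ℂ (th x))
  have hcc : Continuous c := by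
    have h4 : Continuous (cfcHom (R := ℂ) (p := IsStarNormal) (a := x) hxn) :=
      cfcHom_continuous hxn
    have h5 : Continuous (ContinuousMap.compStarAlgHom' ℂ ℂ (th x)) :=
      ContinuousMap.continuous_precomp (th x)
    exact h4.comp h5
  have hc1 : c (cosk 1) = x := by
    have h6 : (ContinuousMap.compStarAlgHom' ℂ ℂ (th x)) (cosk 1) =
        (ContinuousMap.id ℂ).restrict (spectrum ℂ x) := by
      ext z
      show cosk 1 (th x z) = z.1
      rw [cosk_apply]
      have h7 : ((th x z : unitInterval) : ℝ) = Real.arccos (z.1.re) / Real.pi := rfl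
      have h8 : |z.1.re| ≤ 1 := by
        refine (Complex.abs_re_le_norm _).trans ?_
        exact (spectrum.norm_le_norm_of_mem z.2).trans hxb
      rw [h7, mul_div_cancel₀ _ Real.pi_ne_zero, Nat.cast_one, one_mul,
        Real.cos_arccos (abs_le.1 h8).1 (abs_le.1 h8).2]
      exact (hxs.mem_spectrum_eq_re z.2).symm
    show (cfcHom (R := ℂ) (p := IsStarNormal) (a := x) hxn)
      ((ContinuousMap.compStarAlgHom' ℂ ℂ (th x)) (cosk 1)) = x
    rw [h6]
    exact cfcHom_id hxn
  have hck : ∀ k : ℕ, c (cosk k) = yk a b k ∧ c (cosk (k + 1)) = yk a b (k + 1) := by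
    intro k
    induction k with
    | zero => exact ⟨by rw [cosk_zero, map_one, yk_zero], hc1⟩
    | succ k ih =>
      refine ⟨ih.2, ?_⟩
      have h9 := cosk_mul (k + 1) 1 (by omega)
      have h10 : cosk (k + 2) = (2 : ℂ) • (cosk 1 * cosk (k + 1)) - cosk k := by
        rw [mul_comm (cosk 1), h9, smul_smul]
        norm_num
      have h11 := yk_rec a b ha2 hb2 k
      show c (cosk (k + 2)) = yk a b (k + 2)
      rw [h10, h11, map_sub, map_smul, map_mul, hc1, ih.1, ih.2]
  obtain ⟨l, hl, hl'⟩ := Pool.Agent.H923R2.FZ.T_LEBF.t_LEBF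
  have hτc : Continuous τ := AddMonoidHomClass.continuous_of_bound τ 1 (fun x => by
    simpa using hτ.bound x)
  have hlc : Continuous l := AddMonoidHomClass.continuous_of_bound l 1 (fun x => by
    simpa using hl.bound x)
  refine ⟨c, ?_, ?_⟩
  · intro f
    rw [← hl']
    have hd : f ∈ (StarAlgebra.adjoin ℂ {cosk 1}).topologicalClosure := by
      rw [dense_adj]; trivial
    have hsub : (StarAlgebra.adjoin ℂ {cosk 1} : Set C(unitInterval, ℂ)) ⊆
        {f | τ (c f) = l f} := by
      intro g hg
      have hg' := adj_le_span g hg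
      clear hg
      show τ (c g) = l g
      induction hg' using Submodule.span_induction with
      | mem y hy =>
        obtain ⟨k, rfl⟩ := hy
        rw [(hck k).1, hl']
        rcases Nat.eq_zero_or_pos k with rfl | hk
        · rw [yk_zero, hτ.one, cosk_zero, leb_one]
        · rw [hty k hk.ne', leb_cosk k hk.ne']
      | zero => simp
      | add y z _ _ h1 h2 => rw [map_add, map_add, map_add, h1, h2]
      | smul a y _ h1 => rw [map_smul, map_smul, map_smul, h1]
    have hcl : IsClosed {f : C(unitInterval, ℂ) | τ (c f) = l f} :=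
      isClosed_eq (hτc.comp hcc) hlc
    exact (closure_minimal hsub hcl) hd
  · intro f
    have hd : f ∈ (StarAlgebra.adjoin ℂ {cosk 1}).topologicalClosure := by
      rw [dense_adj]; trivial
    have hle : StarAlgebra.adjoin ℂ {cosk 1} ≤
        ((e0.range ⊔ e1.range).topologicalClosure).comap c := by
      rw [StarAlgebra.adjoin_le_iff]
      intro g hg
      rw [Set.mem_singleton_iff] at hg
      subst hg
      show c (cosk 1) ∈ (e0.range ⊔ e1.range).topologicalClosure
      rw [hc1]
      refine StarSubalgebra.le_topologicalClosure _ ?_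
      have ham : a ∈ e0.range ⊔ e1.range := (le_sup_left : e0.range ≤ _) ⟨_, rfl⟩
      have hbm : b ∈ e0.range ⊔ e1.range := (le_sup_right : e1.range ≤ _) ⟨_, rfl⟩
      rw [hx]
      unfold yk
      exact SMulMemClass.smul_mem _ (add_mem (pow_mem (mul_mem ham hbm) _)
        (pow_mem (mul_mem hbm ham) _))
    have hcl : IsClosed (c ⁻¹' ((e0.range ⊔ e1.range).topologicalClosure : Set B)) :=
      (StarSubalgebra.isClosed_topologicalClosure _).preimage hcc
    exact (closure_minimal (show (StarAlgebra.adjoin ℂ {cosk 1} : Set C(unitInterval, ℂ)) ⊆ _ from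
      fun g hg => hle hg) hcl) hd

end main

end Pool.Agent.N157.UN
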